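import Pool.Agent.H96.G1N.Tr
import Pool.Agent.H2.G1.Sec

/-!
# Genus one: the section for the natural order of the slots
-/

namespace Pool.Agent.H96.G1N

theorem secN : Nonempty Pool.Agent.H95.G1N.Sec := tr Pool.Agent.H2.G1.sec

end Pool.Agent.H96.G1N
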