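import Pool.Agent.H95.G1N.Defs
import Pool.Agent.H95.G1.Defs

/-!
# Genus one: transport of a section from the old order of the slots to the natural order

The complexes of `Pool.Agent.H95.G1` and `Pool.Agent.H95.G1N` have the same cells and the same words; only the slots
of every cell are permuted by `sg`.
-/

open Finset

namespace Pool.Agent.H96.G1N

open Pool.Agent.H95

/-- the new slot of every old slot -/
def sgL : List (List ℕ) := [
  [2, 3, 1, 4, 0],
  [3, 1, 4, 2, 0],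
  [2, 4, 1, 3, 0],
  [4, 1, 2, 3, 0],
  [2, 1, 3, 4, 0],
  [0, 2, 3, 1, 4],
  [0, 3, 1, 4, 2],
  [0, 2, 4, 1, 3],
  [0, 4, 1, 2, 3],
  [0, 2, 1, 3, 4],
  [0, 1, 3, 4, 2],
  [0, 1, 4, 2, 3],
  [0, 1, 2, 4, 3],
  [2, 3, 1, 4, 0],
  [3, 1, 4, 2, 0],
  [2, 4, 1, 3, 0],
  [4, 1, 2, 3, 0],
  [0, 2, 3, 1, 4],
  [0, 3, 1, 4, 2],
  [0, 2, 4, 1, 3],
  [0, 4, 1, 2, 3],
  [0, 1, 3, 4, 2],
  [0, 1, 4, 2, 3],
  [0, 1, 2, 4, 3]]

/-- the new slot of an old slot -/
def sg (f : Fin 24) (a : Fin 5) : Fin 5 := Fin.ofNat 5 ((sgL.getD f.1 []).getD a.1 0)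

/-- the old slot of a new slot -/
def si (f : Fin 24) (b : Fin 5) : Fin 5 := Fin.ofNat 5 ((sgL.getD f.1 []).idxOf b.1)

theorem si_sg : ∀ (f : Fin 24) (a : Fin 5), si f (sg f a) = a := by decide +kernel

theorem sg_si : ∀ (f : Fin 24) (b : Fin 5), sg f (si f b) = b := by decide +kernel

theorem gc_sg : ∀ (f : Fin 24) (a : Fin 5), G1N.gc f (sg f a) = G1.gc f a := by decide +kernel

theorem gs_sg : ∀ (f : Fin 24) (a : Fin 5), G1N.gs f (sg f a) = sg (G1.gc f a) (G1.gs f a) := by decide +kernel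

theorem above_sg : ∀ (f : Fin 24) (a : Fin 5) (i : Fin 4), ∃ j : Fin 4,
    sg (G1.gc f a) ((G1.gs f a).succAbove i) = (sg (G1.gc f a) (G1.gs f a)).succAbove j ∧
    sg f (a.succAbove i) = (sg f a).succAbove j := by decide +kernel

theorem pfx_sg : ∀ (f : Fin 24) (a : Fin 5), G1N.pfx f (sg f a) = (G1.pfx f a).map (sg (G1.gc f a)) := by
  decide +kernel

theorem count_sg : ∀ (f : Fin 24) (a : Fin 5), (G1N.wd f).count (sg f a) = (G1.wd f).count a := by decide +kernel

/-- the permutation of the slots -/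
def sgE (f : Fin 24) : Fin 5 ≃ Fin 5 := ⟨sg f, si f, si_sg f, sg_si f⟩

theorem tp_sg (f : Fin 24) (a : Fin 5) (P : Fin 5 → ℝ) (s : Fin 5) :
    G1N.tp (sg f a) (sg (G1.gc f a) (G1.gs f a)) P (sg (G1.gc f a) s) =
      G1.tp a (G1.gs f a) (fun s => P (sg f s)) s := by
  unfold G1N.tp G1.tp
  rcases Fin.eq_self_or_eq_succAbove (G1.gs f a) s with h | ⟨i, h⟩
  · subst h
    simp
  · subst h
    obtain ⟨j, h1, h2⟩ := above_sg f a i
    rw [h1]
    simp [h2]

theorem th_sg (f : Fin 24) (a : Fin 5) (P : Fin 5 → ℝ) :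
    G1N.th f (sg f a) P = G1.th f a (fun s => P (sg f s)) := by
  unfold G1N.th G1.th
  rw [pfx_sg, List.map_map, gc_sg, gs_sg]
  congr 1
  refine List.map_congr_left fun s _ => ?_
  simp only [Function.comp]
  rw [tp_sg, count_sg]

theorem sim_sg (f : Fin 24) (P : Fin 5 → ℝ) (h : G1N.Sim P) : G1.Sim (fun s => P (sg f s)) :=
  ⟨fun s => h.1 _, by rw [← h.2]; exact Equiv.sum_comp (sgE f) P⟩

theorem sim_si (f : Fin 24) (P : Fin 5 → ℝ) (h : G1.Sim P) : G1N.Sim (fun s => P (si f s)) :=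
  ⟨fun s => h.1 _, by rw [← h.2]; exact Equiv.sum_comp (sgE f).symm P⟩

theorem reach_sg {f : Fin 24} {R : Fin 5 → ℝ} {t : ℝ} {g : Fin 24} {T : Fin 5 → ℝ} (h : G1.Reach f R t g T) :
    G1N.Reach f (fun s => R (si f s)) t g (fun s => T (si g s)) := by
  induction h with
  | refl f P => exact G1N.Reach.refl _ _
  | step f P a h t g Q hr ih =>
    have h1 := th_sg f a (fun s => P (si f s))
    simp only [si_sg] at h1
    rw [← h1]
    refine G1N.Reach.step f _ (sg f a) (by simpa [si_sg] using h) t g _ ?_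
    rw [gc_sg, gs_sg]
    convert ih using 1
    funext s
    have h2 := tp_sg f a (fun s => P (si f s)) (si (G1.gc f a) s)
    simp only [si_sg, sg_si] at h2
    exact h2

theorem tr (h : Nonempty G1.Sec) : Nonempty G1N.Sec := by
  obtain ⟨S⟩ := h
  refine ⟨{ U := fun f P => S.U f (fun s => P (sg f s)), cont := ?_, ne := ?_, law := ?_, inj := ?_, surj := ?_ }⟩
  · intro f
    refine (S.cont f).comp (Continuous.continuousOn (by fun_prop)) ?_
    intro P hP
    exact sim_sg f P hP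
  · intro f P hP
    exact S.ne f _ (sim_sg f P hP)
  · intro f b P hP hb k
    obtain ⟨a, rfl⟩ : ∃ a, sg f a = b := ⟨si f b, sg_si f b⟩
    have h := S.law f a (fun s => P (sg f s)) (sim_sg f P hP) hb k
    rw [th_sg, gc_sg, gs_sg]
    have h3 : (fun s => G1N.tp (sg f a) (sg (G1.gc f a) (G1.gs f a)) P (sg (G1.gc f a) s)) =
        G1.tp a (G1.gs f a) (fun s => P (sg f s)) := funext fun s => tp_sg f a P s
    rw [h3]
    exact h
  · intro f P g Q hP hQ t c hc h
    obtain ⟨s, n, hr, hn⟩ := S.inj f _ g _ (sim_sg f P hP) (sim_sg g Q hQ) t c hc h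
    refine ⟨s, n, ?_, hn⟩
    have := reach_sg hr
    simpa only [sg_si] using this
  · intro v hv
    obtain ⟨f, P, hP, t, c, hc, h⟩ := S.surj v hv
    refine ⟨f, fun s => P (si f s), sim_si f P hP, t, c, hc, ?_⟩
    intro k
    have := h k
    simpa only [si_sg] using this

end Pool.Agent.H96.G1N
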